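import Mathlib

set_option autoImplicit false

/-! Completeness of the sequences `⌊t α^n⌋`: sums of the smaller values (helper83). -/

namespace Pool.Agent.Y83.FL

/-- the set of the values `⌊t α^n⌋` -/
def seqSet (t α : ℝ) : Set ℤ := {m | ∃ n : ℕ, m = ⌊t * α ^ n⌋}

/-- `m` is a sum of distinct elements of `A` -/
def Rep (A : Set ℤ) (m : ℤ) : Prop :=
  ∃ F : Finset ℤ, (F : Set ℤ) ⊆ A ∧ ∑ a ∈ F, a = m

/-- every large integer is a sum of distinct elements of `A` -/
def Complete (A : Set ℤ) : Prop := ∃ N : ℤ, ∀ m ≥ N, Rep A m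

open Classical in
/-- the sum of the elements `v` of `A` with `1 ≤ v < m` -/
noncomputable def below (A : Set ℤ) (m : ℤ) : ℤ :=
  ∑ v ∈ (Finset.Ico 1 m).filter (fun v => v ∈ A), v

lemma below_nonneg (A : Set ℤ) (m : ℤ) : 0 ≤ below A m := by
  classical
  unfold below
  refine Finset.sum_nonneg fun v hv => ?_
  rw [Finset.mem_filter, Finset.mem_Ico] at hv
  linarith [hv.1.1]

lemma below_add_le (A : Set ℤ) {v m : ℤ} (hv : v ∈ A) (h1 : 1 ≤ v) (hm : v < m) :
    below A v + v ≤ below A m := by
  classical
  unfold below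
  have hnot : v ∉ (Finset.Ico 1 v).filter (fun v => v ∈ A) := by
    intro h
    rw [Finset.mem_filter, Finset.mem_Ico] at h
    exact absurd h.1.2 (lt_irrefl _)
  rw [add_comm, ← Finset.sum_insert (f := fun v => v) hnot]
  refine Finset.sum_le_sum_of_subset_of_nonneg ?_ ?_
  · intro w hw
    rw [Finset.mem_insert] at hw
    rw [Finset.mem_filter, Finset.mem_Ico]
    rcases hw with rfl | hw
    · exact ⟨⟨h1, hm⟩, hv⟩
    · rw [Finset.mem_filter, Finset.mem_Ico] at hw
      exact ⟨⟨hw.1.1, hw.1.2.trans hm⟩, hw.2⟩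
  · intro w hw _
    rw [Finset.mem_filter, Finset.mem_Ico] at hw
    linarith [hw.1.1]

lemma below_le (A : Set ℤ) {v m : ℤ} (hm : ∀ w ∈ A, 1 ≤ w → w < m → w ≤ v) (h1 : 1 ≤ v) :
    below A m ≤ below A v + v := by
  classical
  unfold below
  have hnot : v ∉ (Finset.Ico 1 v).filter (fun v => v ∈ A) := by
    intro h
    rw [Finset.mem_filter, Finset.mem_Ico] at h
    exact absurd h.1.2 (lt_irrefl _)
  rw [add_comm, ← Finset.sum_insert (f := fun v => v) hnot]
  refine Finset.sum_le_sum_of_subset_of_nonneg ?_ ?_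
  · intro w hw
    rw [Finset.mem_filter, Finset.mem_Ico] at hw
    rw [Finset.mem_insert]
    rcases (hm w hw.2 hw.1.1 hw.1.2).lt_or_eq with h | h
    · right
      rw [Finset.mem_filter, Finset.mem_Ico]
      exact ⟨⟨hw.1.1, h⟩, hw.2⟩
    · exact Or.inl h
  · intro w hw _
    rw [Finset.mem_insert] at hw
    rcases hw with rfl | hw
    · linarith
    · rw [Finset.mem_filter, Finset.mem_Ico] at hw
      linarith [hw.1.1]

lemma below_one (A : Set ℤ) : below A 1 = 0 := by
  classical
  unfold below
  simp

lemma below_eq_zero (A : Set ℤ) {m : ℤ} (h : ∀ w ∈ A, m ≤ w) : below A m = 0 := by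
  classical
  unfold below
  rw [Finset.filter_eq_empty_iff.2 ?_, Finset.sum_empty]
  intro w hw hA
  rw [Finset.mem_Ico] at hw
  exact absurd (h w hA) (not_le.2 hw.2)

lemma sum_le_below (A : Set ℤ) (hA : ∀ v ∈ A, 0 ≤ v) {m : ℤ} (F : Finset ℤ)
    (hF : (F : Set ℤ) ⊆ A) (hm : ∀ v ∈ F, v < m) : ∑ v ∈ F, v ≤ below A m := by
  classical
  unfold below
  have e : ∑ v ∈ F.filter (fun v => 1 ≤ v), v = ∑ v ∈ F, v := by
    refine Finset.sum_filter_of_ne fun v hv h0 => ?_
    have h1 := hA v (hF hv)
    omega
  rw [← e]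
  refine Finset.sum_le_sum_of_subset_of_nonneg ?_ ?_
  · intro w hw
    rw [Finset.mem_filter] at hw
    rw [Finset.mem_filter, Finset.mem_Ico]
    exact ⟨⟨hw.2, hm w hw.1⟩, hF hw.1⟩
  · intro w hw _
    rw [Finset.mem_filter, Finset.mem_Ico] at hw
    linarith [hw.1.1]

/-- the classical sufficient condition -/
lemma brown_aux (A : Set ℤ) (h : ∀ v ∈ A, 1 ≤ v → v ≤ 1 + below A v) (N : ℕ) :
    ∀ m : ℤ, 0 ≤ m → m ≤ below A ((N : ℤ) + 1) →
      ∃ F : Finset ℤ, (F : Set ℤ) ⊆ A ∧ (∀ v ∈ F, v ≤ N) ∧ ∑ v ∈ F, v = m := by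
  classical
  induction N with
  | zero =>
    intro m h0 h1
    rw [Nat.cast_zero, zero_add, below_one] at h1
    refine ⟨∅, by simp, by simp, ?_⟩
    rw [Finset.sum_empty]
    omega
  | succ N ih =>
    intro m h0 h1
    by_cases hm : m ≤ below A ((N : ℤ) + 1)
    · obtain ⟨F, hF, hFN, hs⟩ := ih m h0 hm
      refine ⟨F, hF, fun v hv => ?_, hs⟩
      have := hFN v hv
      push_cast
      linarith
    · push Not at hm
      by_cases hN : ((N : ℤ) + 1) ∈ A
      · have hb := h _ hN (by omega)
        have hle : below A (((N + 1 : ℕ) : ℤ) + 1) ≤ below A ((N : ℤ) + 1) + ((N : ℤ) + 1) := by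
          apply below_le
          · intro w _ _ hw
            push_cast at hw
            linarith
          · omega
        obtain ⟨F, hF, hFN, hs⟩ := ih (m - ((N : ℤ) + 1)) (by linarith) (by linarith)
        refine ⟨insert ((N : ℤ) + 1) F, ?_, ?_, ?_⟩
        · intro v hv
          rw [Finset.mem_coe, Finset.mem_insert] at hv
          rcases hv with rfl | hv
          · exact hN
          · exact hF hv
        · intro v hv
          rw [Finset.mem_insert] at hv
          rcases hv with rfl | hv
          · push_cast; linarith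
          · have := hFN v hv
            push_cast
            linarith
        · rw [Finset.sum_insert, hs]
          · ring
          · intro hv
            have := hFN _ hv
            linarith
      · exfalso
        have : below A (((N + 1 : ℕ) : ℤ) + 1) ≤ below A ((N : ℤ) + 1) := by
          unfold below
          refine Finset.sum_le_sum_of_subset_of_nonneg ?_ ?_
          · intro w hw
            rw [Finset.mem_filter, Finset.mem_Ico] at hw
            rw [Finset.mem_filter, Finset.mem_Ico]
            refine ⟨⟨hw.1.1, ?_⟩, hw.2⟩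
            have h2 := hw.1.2
            push_cast at h2
            have h3 : w ≠ (N : ℤ) + 1 := by
              rintro rfl
              exact hN hw.2
            omega
          · intro w hw _
            rw [Finset.mem_filter, Finset.mem_Ico] at hw
            linarith [hw.1.1]
        linarith

lemma brown (A : Set ℤ) (h : ∀ v ∈ A, v ≤ 1 + below A v) (hu : ∀ m : ℤ, ∃ v ∈ A, m ≤ v)
    (m : ℤ) (hm : 0 ≤ m) : Rep A m := by
  obtain ⟨v, hv, hmv⟩ := hu (max m 1)
  have h1 : 1 ≤ v := (le_max_right m 1).trans hmv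
  have h2 : m ≤ v := (le_max_left m 1).trans hmv
  obtain ⟨N, hN⟩ := Int.eq_ofNat_of_zero_le (show 0 ≤ v by linarith)
  have h3 : below A v + v ≤ below A (v + 1) := below_add_le A hv h1 (by linarith)
  have h4 := below_nonneg A v
  obtain ⟨F, hF, -, hs⟩ := brown_aux A (fun v hv _ => h v hv) N m hm (by rw [← hN]; linarith)
  exact ⟨F, hF, hs⟩

/-- a gap in the sums persists when the sequence grows at least like the Fibonacci numbers -/
lemma gap (a : ℕ → ℤ) (A : Set ℤ) (hA : ∀ v, v ∈ A ↔ ∃ n, v = a n) (hmono : Monotone a)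
    (h0 : ∀ n, 0 ≤ a n) (n₀ : ℕ) (hlt : ∀ n, n₀ ≤ n → a n < a (n + 1))
    (hfib : ∀ n, a (n + 1) + a n ≤ a (n + 2)) (hgap : 1 + below A (a n₀) < a n₀) :
    ¬ Complete A := by
  classical
  have hA0 : ∀ v ∈ A, 0 ≤ v := by
    intro v hv
    obtain ⟨n, rfl⟩ := (hA v).1 hv
    exact h0 n
  have hmem : ∀ n, a n ∈ A := fun n => (hA _).2 ⟨n, rfl⟩
  have hnext : ∀ n, n₀ ≤ n → below A (a (n + 1)) ≤ below A (a n) + a n := by
    intro n hn
    apply below_le
    · intro w hw _ hwn
      obtain ⟨j, rfl⟩ := (hA w).1 hw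
      apply hmono
      by_contra hj
      push Not at hj
      exact absurd (hmono (show n + 1 ≤ j by omega)) (not_le.2 hwn)
    · have := hmono hn
      have h2 := below_nonneg A (a n₀)
      linarith
  have key : ∀ i : ℕ, ∃ N : ℤ, (i : ℤ) ≤ N ∧ N < a (n₀ + 2 * i) ∧ ¬ Rep A N ∧
      below A (a (n₀ + 2 * i + 1)) < N + a (n₀ + 2 * i + 1) := by
    intro i
    induction i with
    | zero =>
      refine ⟨1 + below A (a n₀), ?_, ?_, ?_, ?_⟩
      · have := below_nonneg A (a n₀)
        push_cast
        linarith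
      · simpa using hgap
      · rintro ⟨F, hF, hs⟩
        have hF0 : ∀ v ∈ F, 0 ≤ v := fun v hv => hA0 v (hF hv)
        have h1 : ∑ v ∈ F, v ≤ below A (a n₀) := by
          refine sum_le_below A hA0 F hF fun v hv => ?_
          have := Finset.single_le_sum (f := fun v => v) hF0 hv
          linarith
        linarith
      · have h1 := hnext n₀ le_rfl
        have h2 := hlt n₀ le_rfl
        simp only [Nat.mul_zero, Nat.add_zero]
        linarith
    | succ i ih =>
      obtain ⟨N, hiN, hNa, hrep, hbel⟩ := ih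
      set m := n₀ + 2 * i with hm
      have e1 : n₀ + 2 * (i + 1) = m + 2 := by omega
      rw [e1]
      have hf1 := hfib m
      have hf2 := hfib (m + 1)
      have hpos : 1 ≤ a (m + 1) := by
        have h1 := hlt m (by omega)
        have h2 := h0 m
        linarith
      refine ⟨N + a (m + 1), ?_, ?_, ?_, ?_⟩
      · push_cast
        linarith
      · linarith
      · rintro ⟨F, hF, hs⟩
        have hF0 : ∀ v ∈ F, 0 ≤ v := fun v hv => hA0 v (hF hv)
        have hle : ∀ v ∈ F, v ≤ a (m + 1) := by
          intro v hv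
          have h1 := Finset.single_le_sum (f := fun v => v) hF0 hv
          have h2 : v < a (m + 2) := by linarith
          obtain ⟨j, rfl⟩ := (hA v).1 (hF hv)
          apply hmono
          by_contra hj
          push Not at hj
          exact absurd (hmono (show m + 2 ≤ j by omega)) (not_le.2 h2)
        by_cases hin : a (m + 1) ∈ F
        · apply hrep
          refine ⟨F.erase (a (m + 1)), ?_, ?_⟩
          · intro v hv
            rw [Finset.mem_coe, Finset.mem_erase] at hv
            exact hF hv.2
          · have := Finset.add_sum_erase F (fun v => v) hin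
            linarith
        · have h1 : ∑ v ∈ F, v ≤ below A (a (m + 1)) := by
            refine sum_le_below A hA0 F hF fun v hv => ?_
            refine lt_of_le_of_ne (hle v hv) ?_
            rintro rfl
            exact hin hv
          linarith
      · have h1 := hnext (m + 1) (by omega)
        have h2 := hnext (m + 2) (by omega)
        have e2 : m + 1 + 1 = m + 2 := rfl
        have e3 : m + 1 + 2 = m + 2 + 1 := rfl
        rw [e2] at h1
        rw [e2, e3] at hf2
        linarith
  rintro ⟨N, hN⟩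
  obtain ⟨M, hM, -, hr, -⟩ := key N.toNat
  exact hr (hN M ((Int.self_le_toNat N).trans hM))

end Pool.Agent.Y83.FL
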