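import Pool.Agent.Y83.FL.Main

set_option autoImplicit false

/-! Completeness of the sequences `⌊t α^n⌋`: a finite certificate (helper83). -/

namespace Pool.Agent.Y83.FL

variable {t α : ℝ}

/-- `m` is a sum of distinct elements of `A` which are at most `b` -/
def RepLe (A : Set ℤ) (b m : ℤ) : Prop :=
  ∃ F : Finset ℤ, (F : Set ℤ) ⊆ A ∧ (∀ v ∈ F, v ≤ b) ∧ ∑ a ∈ F, a = m

lemma dbl (h2 : α < 2) (n : ℕ) (hn : (α - 1) / (2 - α) ≤ (⌊t * α ^ n⌋ : ℝ)) (hα : 1 < α) :
    ⌊t * α ^ (n + 1)⌋ ≤ 2 * ⌊t * α ^ n⌋ := by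
  rw [div_le_iff₀ (by linarith)] at hn
  have hfl := Int.lt_floor_add_one (t * α ^ n)
  have hdbl : ⌊t * α ^ (n + 1)⌋ < 2 * ⌊t * α ^ n⌋ + 1 := by
    rw [Int.floor_lt]
    push_cast
    have e : t * α ^ (n + 1) = (t * α ^ n) * α := by ring
    rw [e]
    nlinarith
  linarith

lemma chain (ht : 0 < t) (hα : 1 < α) (h2 : α < 2) (n : ℕ) (u W : ℤ)
    (hn : (α - 1) / (2 - α) ≤ (⌊t * α ^ n⌋ : ℝ)) (hW : u + 2 * ⌊t * α ^ n⌋ ≤ W + 1)
    (hrep : ∀ m, u ≤ m → m ≤ W → RepLe (seqSet t α) ⌊t * α ^ n⌋ m) (k : ℕ) :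
    ∃ W' : ℤ, u + 2 * ⌊t * α ^ (n + k)⌋ ≤ W' + 1 ∧
      ∀ m, u ≤ m → m ≤ W' → RepLe (seqSet t α) ⌊t * α ^ (n + k)⌋ m := by
  classical
  induction k with
  | zero => exact ⟨W, hW, hrep⟩
  | succ k ih =>
    obtain ⟨W', hW', hr⟩ := ih
    have hnk : (α - 1) / (2 - α) ≤ (⌊t * α ^ (n + k)⌋ : ℝ) := by
      refine hn.trans ?_
      exact_mod_cast a_mono ht hα (Nat.le_add_right n k)
    have hd := dbl h2 (n + k) hnk hα
    have hmono : ⌊t * α ^ (n + k)⌋ ≤ ⌊t * α ^ (n + k + 1)⌋ :=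
      a_mono ht hα (Nat.le_succ (n + k))
    have e : n + (k + 1) = n + k + 1 := by ring
    rw [e]
    rcases hmono.lt_or_eq with hlt | heq
    · refine ⟨W' + ⌊t * α ^ (n + k + 1)⌋, by linarith, fun m hm1 hm2 => ?_⟩
      by_cases hm : m ≤ W'
      · obtain ⟨F, hF, hle, hs⟩ := hr m hm1 hm
        exact ⟨F, hF, fun v hv => (hle v hv).trans hmono, hs⟩
      · push Not at hm
        obtain ⟨F, hF, hle, hs⟩ := hr (m - ⌊t * α ^ (n + k + 1)⌋) (by linarith) (by linarith)
        refine ⟨insert ⌊t * α ^ (n + k + 1)⌋ F, ?_, ?_, ?_⟩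
        · intro v hv
          rw [Finset.mem_coe, Finset.mem_insert] at hv
          rcases hv with rfl | hv
          · exact ⟨n + k + 1, rfl⟩
          · exact hF hv
        · intro v hv
          rw [Finset.mem_insert] at hv
          rcases hv with rfl | hv
          · exact le_rfl
          · exact (hle v hv).trans hmono
        · rw [Finset.sum_insert, hs]
          · ring
          · intro hv
            have := hle _ hv
            linarith
    · rw [← heq]
      exact ⟨W', hW', hr⟩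

/-- a finite certificate for completeness -/
lemma cert (ht : 0 < t) (hα : 1 < α) (h2 : α < 2) (n : ℕ) (u : ℤ)
    (hn : (α - 1) / (2 - α) ≤ (⌊t * α ^ n⌋ : ℝ))
    (hrep : ∀ m, u ≤ m → m < u + 2 * ⌊t * α ^ n⌋ → RepLe (seqSet t α) ⌊t * α ^ n⌋ m)
    (m : ℤ) (hm : u ≤ m) : Rep (seqSet t α) m := by
  obtain ⟨v, ⟨j, rfl⟩, hj⟩ := unb ht hα (max (m - u) 0)
  have hj1 : m - u ≤ ⌊t * α ^ j⌋ := (le_max_left _ _).trans hj
  have hj0 : 0 ≤ ⌊t * α ^ j⌋ := (le_max_right _ _).trans hj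
  obtain ⟨W', hW', hr⟩ := chain ht hα h2 n u (u + 2 * ⌊t * α ^ n⌋ - 1) hn (by linarith)
    (fun m h1 h3 => hrep m h1 (by linarith)) j
  have hmono : ⌊t * α ^ j⌋ ≤ ⌊t * α ^ (n + j)⌋ := a_mono ht hα (Nat.le_add_left j n)
  by_cases h : m ≤ W'
  · obtain ⟨F, hF, -, hs⟩ := hr m hm h
    exact ⟨F, hF, hs⟩
  · push Not at h
    have hz : ⌊t * α ^ (n + j)⌋ = 0 := by omega
    have hn0 : (⌊t * α ^ n⌋ : ℤ) ≤ 0 := by
      rw [← hz]
      exact a_mono ht hα (Nat.le_add_right n j)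
    have hn0' : (⌊t * α ^ n⌋ : ℝ) ≤ 0 := by exact_mod_cast hn0
    have : 0 < (α - 1) / (2 - α) := div_pos (by linarith) (by linarith)
    linarith

lemma mem_of_small (ht : 0 < t) (hα : 1 < α) (v : ℤ) (h1 : ⌊t⌋ ≤ v)
    (h2 : (α - 1) * v ≤ 1) : v ∈ seqSet t α := by
  classical
  have hex : ∃ n : ℕ, (v : ℝ) ≤ t * α ^ n := by
    obtain ⟨w, ⟨n, rfl⟩, hn⟩ := unb ht hα v
    exact ⟨n, Int.le_floor.1 hn⟩
  have hs := Nat.find_spec hex
  by_cases h0 : Nat.find hex = 0
  · rw [h0, pow_zero, mul_one] at hs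
    refine ⟨0, ?_⟩
    rw [pow_zero, mul_one]
    exact le_antisymm (Int.le_floor.2 hs) h1
  · obtain ⟨k, hk⟩ := Nat.exists_eq_succ_of_ne_zero h0
    have hm : ¬ (v : ℝ) ≤ t * α ^ k := Nat.find_min hex (by omega)
    rw [hk] at hs
    push Not at hm
    refine ⟨k.succ, ?_⟩
    symm
    rw [Int.floor_eq_iff]
    refine ⟨hs, ?_⟩
    have e : t * α ^ (k.succ) = (t * α ^ k) * α := by
      rw [Nat.succ_eq_add_one]
      ring
    rw [e]
    nlinarith

lemma repLe_one (A : Set ℤ) {b m : ℤ} (hA : m ∈ A) (hb : m ≤ b) : RepLe A b m := by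
  refine ⟨{m}, ?_, ?_, ?_⟩
  · intro v hv
    rw [Finset.mem_coe, Finset.mem_singleton] at hv
    rw [hv]
    exact hA
  · intro v hv
    rw [Finset.mem_singleton] at hv
    rw [hv]
    exact hb
  · simp

lemma repLe_two (A : Set ℤ) {b x y : ℤ} (hx : x ∈ A) (hy : y ∈ A) (hxb : x ≤ b) (hyb : y ≤ b)
    (hxy : x < y) : RepLe A b (x + y) := by
  refine ⟨{x, y}, ?_, ?_, ?_⟩
  · intro v hv
    rw [Finset.mem_coe, Finset.mem_insert, Finset.mem_singleton] at hv
    rcases hv with rfl | rfl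
    · exact hx
    · exact hy
  · intro v hv
    rw [Finset.mem_insert, Finset.mem_singleton] at hv
    rcases hv with rfl | rfl
    · exact hxb
    · exact hyb
  · rw [Finset.sum_pair hxy.ne]

lemma repLe_three (A : Set ℤ) {b x y z : ℤ} (hx : x ∈ A) (hy : y ∈ A) (hz : z ∈ A)
    (hzb : z ≤ b) (hxy : x < y) (hyz : y < z) : RepLe A b (x + y + z) := by
  refine ⟨{x, y, z}, ?_, ?_, ?_⟩
  · intro v hv
    rw [Finset.mem_coe, Finset.mem_insert, Finset.mem_insert, Finset.mem_singleton] at hv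
    rcases hv with rfl | rfl | rfl
    · exact hx
    · exact hy
    · exact hz
  · intro v hv
    rw [Finset.mem_insert, Finset.mem_insert, Finset.mem_singleton] at hv
    rcases hv with rfl | rfl | rfl
    · linarith
    · linarith
    · exact hzb
  · rw [Finset.sum_insert, Finset.sum_pair hyz.ne]
    · ring
    · rw [Finset.mem_insert, Finset.mem_singleton]
      rintro (h | h)
      · linarith
      · linarith

/-- for every `t ≥ 1` a whole interval of `α` is good -/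
lemma near_one (ht : 1 ≤ t) (hα : 1 < α) (h : (α - 1) * (2 * ⌊t⌋ + 1) ≤ 1)
    (m : ℤ) (hm : ⌊t⌋ ≤ m) : Rep (seqSet t α) m := by
  have ht0 : 0 < t := by linarith
  set T := ⌊t⌋ with hT
  have hT1 : 1 ≤ T := Int.le_floor.2 (by exact_mod_cast ht)
  have hT1' : (1 : ℝ) ≤ T := by exact_mod_cast hT1
  have hα43 : α ≤ 4 / 3 := by nlinarith
  have hmem : ∀ v : ℤ, T ≤ v → v ≤ 2 * T + 1 → v ∈ seqSet t α := by
    intro v h1 h2
    refine mem_of_small ht0 hα v h1 ?_
    have h3 : (v : ℝ) ≤ 2 * T + 1 := by exact_mod_cast h2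
    nlinarith
  obtain ⟨n, hn⟩ := hmem (2 * T + 1) (by linarith) le_rfl
  refine cert ht0 hα (by linarith) n T ?_ ?_ m hm
  · rw [← hn, div_le_iff₀ (by linarith)]
    push_cast
    nlinarith
  · rw [← hn]
    intro m h1 h2
    by_cases c1 : m ≤ 2 * T + 1
    · exact repLe_one _ (hmem m h1 c1) c1
    · by_cases c2 : m ≤ 3 * T + 1
      · have := repLe_two (b := 2 * T + 1) _ (hmem T le_rfl (by omega))
          (hmem (m - T) (by omega) (by omega)) (by omega) (by omega) (by omega)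
        rwa [show T + (m - T) = m by ring] at this
      · by_cases c3 : m ≤ 4 * T + 1
        · have := repLe_two (b := 2 * T + 1) _ (hmem (m - (2 * T + 1)) (by omega) (by omega))
            (hmem (2 * T + 1) (by omega) le_rfl) (by omega) (by omega) (by omega)
          rwa [show m - (2 * T + 1) + (2 * T + 1) = m by ring] at this
        · by_cases c4 : m ≤ 5 * T
          · have := repLe_three (b := 2 * T + 1) _ (hmem T le_rfl (by omega))
              (hmem (m - 3 * T - 1) (by omega) (by omega)) (hmem (2 * T + 1) (by omega) le_rfl)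
              (by omega) (by omega) (by omega)
            rwa [show T + (m - 3 * T - 1) + (2 * T + 1) = m by ring] at this
          · have := repLe_three (b := 2 * T + 1) _ (hmem (m - 4 * T - 1) (by omega) (by omega))
              (hmem (2 * T) (by omega) (by omega)) (hmem (2 * T + 1) (by omega) le_rfl)
              (by omega) (by omega) (by omega)
            rwa [show m - 4 * T - 1 + 2 * T + (2 * T + 1) = m by ring] at this

end Pool.Agent.Y83.FL
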