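import Pool.Agent.Y83.FL.Cert

set_option autoImplicit false

/-! Completeness of the sequences `⌊t α^n⌋` (helper83).

With `seqSet t α = {⌊t α^n⌋ : n ≥ 0}`, `Rep A m` (the integer `m` is a sum of distinct elements
of `A`), `Complete A` (`Rep A m` for all large `m`), `below A m` (the sum of the elements `v` of
`A` with `1 ≤ v < m`) and `RepLe A b m` (`m` is a sum of distinct elements of `A` which are at
most `b`):

* for `α` at least the golden ratio the sequence is complete if and only if every `m ≥ 0` is a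
  sum, if and only if each value is at most one more than the sum of the smaller values;
* for `1 < α < 2` every `m ≥ 0` is a sum if and only if `t < 2` and a check over finitely many
  `n` succeeds;
* from the golden ratio to `7/4` the pair is good if and only if `t < 2` and for some `n` we have
  `2 ≤ t α^n < 3` and `t α^(n+1) < 5`;
* every `m ≥ 0` is a sum if `t < 2` and `α ≤ 3/2`, or `t < 2`, `α ≤ 5/3` and `2` is a value;
* for every `t ≥ 1` the pair is good if `(α - 1)(2⌊t⌋ + 1) ≤ 1`;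
* for `1 < α < 2` an interval `[u, u + 2 ⌊t α^n⌋)` of sums of values up to `⌊t α^n⌋` certifies
  that every `m ≥ u` is a sum. -/

namespace Pool.Agent.Y83.FL.Golden

open Pool.Agent.Y83.FL

private lemma below_of_all (t α : ℝ) (ht : 0 < t) (hα : 1 < α)
    (h : ∀ m : ℤ, 0 ≤ m → Rep (seqSet t α) m) (n : ℕ) :
    ⌊t * α ^ n⌋ ≤ 1 + below (seqSet t α) ⌊t * α ^ n⌋ := by
  by_contra hgap
  push Not at hgap
  have hA0 : ∀ v ∈ seqSet t α, 0 ≤ v := by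
    rintro v ⟨k, rfl⟩
    exact Int.floor_nonneg.2 (by positivity)
  have hb := below_nonneg (seqSet t α) ⌊t * α ^ n⌋
  obtain ⟨F, hF, hs⟩ := h (1 + below (seqSet t α) ⌊t * α ^ n⌋) (by linarith)
  have hF0 : ∀ v ∈ F, 0 ≤ v := fun v hv => hA0 v (hF hv)
  have h1 : ∑ v ∈ F, v ≤ below (seqSet t α) ⌊t * α ^ n⌋ := by
    refine sum_le_below _ hA0 F hF fun v hv => ?_
    have := Finset.single_le_sum (f := fun v => v) hF0 hv
    linarith
  linarith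

private lemma finite_check (t α : ℝ) (ht : 0 < t) (hα : 1 < α) :
    {n : ℕ | (⌊t * α ^ n⌋ : ℝ) < (α - 1) / (2 - α)}.Finite := by
  obtain ⟨v, ⟨N, rfl⟩, hN⟩ := unb ht hα ⌈(α - 1) / (2 - α)⌉
  refine (Set.finite_lt_nat N).subset fun n hn => ?_
  rw [Set.mem_setOf_eq] at hn ⊢
  by_contra hh
  push Not at hh
  have h1 : ⌈(α - 1) / (2 - α)⌉ ≤ ⌊t * α ^ n⌋ := hN.trans (a_mono ht hα hh)
  have h2 := Int.ceil_le.1 h1
  linarith

private lemma complete_of_all (A : Set ℤ) (h : ∀ m : ℤ, 0 ≤ m → Rep A m) : Complete A :=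
  ⟨0, fun m hm => h m hm⟩

/-- Completeness of `⌊t α^n⌋`: exact for `α` from the golden ratio on, good regions below. -/
theorem result :
    (∀ t α : ℝ, 0 < t → 1 < α → α + 1 ≤ α ^ 2 →
      (Complete (seqSet t α) ↔ ∀ m : ℤ, 0 ≤ m → Rep (seqSet t α) m) ∧
      (Complete (seqSet t α) ↔
        ∀ n : ℕ, ⌊t * α ^ n⌋ ≤ 1 + below (seqSet t α) ⌊t * α ^ n⌋)) ∧
    (∀ t α : ℝ, 0 < t → 1 < α → α < 2 →
      {n : ℕ | (⌊t * α ^ n⌋ : ℝ) < (α - 1) / (2 - α)}.Finite ∧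
      ((∀ m : ℤ, 0 ≤ m → Rep (seqSet t α) m) ↔
        t < 2 ∧ ∀ n : ℕ, (⌊t * α ^ n⌋ : ℝ) < (α - 1) / (2 - α) →
          ⌊t * α ^ (n + 1)⌋ ≤ 1 + below (seqSet t α) ⌊t * α ^ (n + 1)⌋)) ∧
    (∀ t α : ℝ, 0 < t → 1 < α → α + 1 ≤ α ^ 2 → α ≤ 7 / 4 →
      (Complete (seqSet t α) ↔
        t < 2 ∧ ∃ n : ℕ, 2 ≤ t * α ^ n ∧ t * α ^ n < 3 ∧ t * α ^ (n + 1) < 5)) ∧
    (∀ t α : ℝ, 0 < t → t < 2 → 1 < α →
      (α ≤ 3 / 2 ∨ (α ≤ 5 / 3 ∧ (2 : ℤ) ∈ seqSet t α)) →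
      ∀ m : ℤ, 0 ≤ m → Rep (seqSet t α) m) ∧
    (∀ t α : ℝ, 1 ≤ t → 1 < α → (α - 1) * (2 * ⌊t⌋ + 1) ≤ 1 →
      ∀ m : ℤ, ⌊t⌋ ≤ m → Rep (seqSet t α) m) ∧
    (∀ t α : ℝ, 0 < t → 1 < α → α < 2 → ∀ (n : ℕ) (u : ℤ),
      (α - 1) / (2 - α) ≤ (⌊t * α ^ n⌋ : ℝ) →
      (∀ m : ℤ, u ≤ m → m < u + 2 * ⌊t * α ^ n⌋ → RepLe (seqSet t α) ⌊t * α ^ n⌋ m) →
      ∀ m : ℤ, u ≤ m → Rep (seqSet t α) m) := by
  refine ⟨fun t α ht hα hφ => ⟨⟨fun h => ?_, fun h => ?_⟩, ⟨fun h => ?_, fun h => ?_⟩⟩,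
    fun t α ht hα h2 => ⟨finite_check t α ht hα, fun h => ?_, fun h => ?_⟩, fun t α ht hα hφ h74 => ?_,
    fun t α ht ht2 hα h => ?_, fun t α ht hα h => ?_, fun t α ht hα h2 n u hn h => ?_⟩
  · exact rep_of_BC ht hα (BC_of_complete ht hα hφ h)
  · exact complete_of_all _ h
  · exact BC_of_complete ht hα hφ h
  · exact complete_of_all _ (rep_of_BC ht hα h)
  · exact (BC_iff ht hα h2).1 (below_of_all t α ht hα h)
  · exact rep_of_BC ht hα ((BC_iff ht hα h2).2 h)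
  · rw [← BC_iff_five ht hα hφ h74]
    exact ⟨fun h => BC_of_complete ht hα hφ h, fun h => complete_of_all _ (rep_of_BC ht hα h)⟩
  · rcases h with h | ⟨h, n, hn⟩
    · exact rep_of_BC ht hα (BC_small ht hα h ht2)
    · exact rep_of_BC ht hα (BC_two ht hα h ht2 n hn.symm)
  · exact near_one ht hα h
  · exact cert ht hα h2 n u hn h

end Pool.Agent.Y83.FL.Golden
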