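import Pool.Agent.Y83.FL.Brown

set_option autoImplicit false

/-! Completeness of the sequences `⌊t α^n⌋`: the criterion and the finite check (helper83). -/

namespace Pool.Agent.Y83.FL

variable {t α : ℝ}

lemma x_mono (ht : 0 < t) (hα : 1 < α) : Monotone (fun n : ℕ => t * α ^ n) := by
  intro i j hij
  exact mul_le_mul_of_nonneg_left (pow_le_pow_right₀ hα.le hij) ht.le

lemma a_mono (ht : 0 < t) (hα : 1 < α) : Monotone (fun n : ℕ => ⌊t * α ^ n⌋) :=
  fun _ _ h => Int.floor_le_floor (x_mono ht hα h)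

lemma unb (ht : 0 < t) (hα : 1 < α) (m : ℤ) : ∃ v ∈ seqSet t α, m ≤ v := by
  obtain ⟨j, hj⟩ := pow_unbounded_of_one_lt ((m : ℝ) / t) hα
  refine ⟨_, ⟨j, rfl⟩, ?_⟩
  rw [Int.le_floor]
  rw [div_lt_iff₀ ht] at hj
  linarith

/-- each value is at most one more than the sum of the smaller values -/
def BC (t α : ℝ) : Prop := ∀ n : ℕ, ⌊t * α ^ n⌋ ≤ 1 + below (seqSet t α) ⌊t * α ^ n⌋

lemma rep_of_BC (ht : 0 < t) (hα : 1 < α) (h : BC t α) (m : ℤ) (hm : 0 ≤ m) :
    Rep (seqSet t α) m := by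
  refine brown _ ?_ (unb ht hα) m hm
  rintro v ⟨n, rfl⟩
  exact h n

lemma BC_of_complete (ht : 0 < t) (hα : 1 < α) (hφ : α + 1 ≤ α ^ 2)
    (hc : Complete (seqSet t α)) : BC t α := by
  intro n₀
  by_contra hgap
  push Not at hgap
  refine gap (fun n => ⌊t * α ^ n⌋) (seqSet t α) (fun v => Iff.rfl) (a_mono ht hα)
    (fun n => Int.floor_nonneg.2 (by positivity)) n₀ ?_ ?_ hgap hc
  · intro n hn
    have h2 : (2 : ℤ) ≤ ⌊t * α ^ n₀⌋ := by
      have := below_nonneg (seqSet t α) ⌊t * α ^ n₀⌋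
      linarith
    have h3 : (2 : ℤ) ≤ ⌊t * α ^ n⌋ := h2.trans (a_mono ht hα hn)
    have h4 : (2 : ℝ) ≤ t * α ^ n := by exact_mod_cast Int.le_floor.1 h3
    have h5 : 3 / 2 < α := by nlinarith
    show ⌊t * α ^ n⌋ < ⌊t * α ^ (n + 1)⌋
    rw [Int.lt_iff_add_one_le, Int.le_floor]
    have h6 := Int.floor_le (t * α ^ n)
    push_cast
    have e : t * α ^ (n + 1) = (t * α ^ n) * α := by ring
    rw [e]
    nlinarith
  · intro n
    show ⌊t * α ^ (n + 1)⌋ + ⌊t * α ^ n⌋ ≤ ⌊t * α ^ (n + 2)⌋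
    rw [Int.le_floor]
    push_cast
    have h6 := Int.floor_le (t * α ^ n)
    have h7 := Int.floor_le (t * α ^ (n + 1))
    have e : t * α ^ (n + 2) = (t * α ^ n) * α ^ 2 := by ring
    have e2 : t * α ^ (n + 1) = (t * α ^ n) * α := by ring
    have hpos : 0 < t * α ^ n := by positivity
    have h8 := h7.trans_eq e2
    rw [e]
    nlinarith

lemma t_lt_two (ht : 0 < t) (hα : 1 < α) (h : BC t α) : t < 2 := by
  by_contra hh
  push Not at hh
  have h0 := h 0
  have h1 : below (seqSet t α) ⌊t * α ^ 0⌋ = 0 := by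
    apply below_eq_zero
    rintro w ⟨n, rfl⟩
    exact a_mono ht hα (Nat.zero_le n)
  rw [h1] at h0
  have h2 : (2 : ℤ) ≤ ⌊t * α ^ 0⌋ := by
    rw [Int.le_floor]
    simpa using hh
  omega

lemma floor_le_one {x : ℝ} (hx : x < 2) : ⌊x⌋ ≤ 1 := by
  have : ⌊x⌋ < 2 := by
    rw [Int.floor_lt]
    exact_mod_cast hx
  omega

lemma BC_iff (ht : 0 < t) (hα : 1 < α) (h2 : α < 2) : BC t α ↔ t < 2 ∧
    ∀ n : ℕ, (⌊t * α ^ n⌋ : ℝ) < (α - 1) / (2 - α) →
      ⌊t * α ^ (n + 1)⌋ ≤ 1 + below (seqSet t α) ⌊t * α ^ (n + 1)⌋ := by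
  constructor
  · intro h
    exact ⟨t_lt_two ht hα h, fun n _ => h (n + 1)⟩
  · rintro ⟨ht2, h⟩ n
    induction n with
    | zero =>
      have h1 : ⌊t * α ^ 0⌋ ≤ 1 := floor_le_one (by simpa using ht2)
      have h3 := below_nonneg (seqSet t α) ⌊t * α ^ 0⌋
      linarith
    | succ n ih =>
      by_cases hn : (⌊t * α ^ n⌋ : ℝ) < (α - 1) / (2 - α)
      · exact h n hn
      · push Not at hn
        rw [div_le_iff₀ (by linarith)] at hn
        have hpos : (0 : ℝ) < ⌊t * α ^ n⌋ := by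
          by_contra hh
          push Not at hh
          nlinarith
        have hpos' : 0 < ⌊t * α ^ n⌋ := by exact_mod_cast hpos
        have hfl := Int.lt_floor_add_one (t * α ^ n)
        have hdbl : ⌊t * α ^ (n + 1)⌋ < 2 * ⌊t * α ^ n⌋ + 1 := by
          rw [Int.floor_lt]
          push_cast
          have e : t * α ^ (n + 1) = (t * α ^ n) * α := by ring
          rw [e]
          nlinarith
        have hmono := a_mono ht hα (Nat.le_succ n)
        simp only at hmono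
        rcases hmono.lt_or_eq with hlt | heq
        · have h3 := below_add_le (seqSet t α) ⟨n, rfl⟩ hpos' hlt
          simp only [Nat.succ_eq_add_one] at h3
          linarith
        · simp only [Nat.succ_eq_add_one] at heq
          rw [← heq]
          exact ih

lemma first (ht : 0 < t) (hα : 1 < α) (ht2 : t < 2) :
    ∃ n : ℕ, t * α ^ n < 2 ∧ 2 ≤ t * α ^ (n + 1) := by
  classical
  have hex : ∃ n : ℕ, 2 ≤ t * α ^ n := by
    obtain ⟨v, ⟨n, rfl⟩, hn⟩ := unb ht hα 2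
    exact ⟨n, by exact_mod_cast Int.le_floor.1 hn⟩
  have hs := Nat.find_spec hex
  have hne : Nat.find hex ≠ 0 := by
    intro h0
    rw [h0, pow_zero, mul_one] at hs
    linarith
  obtain ⟨k, hk⟩ := Nat.exists_eq_succ_of_ne_zero hne
  have hm : ¬ 2 ≤ t * α ^ k := Nat.find_min hex (by omega)
  rw [hk] at hs
  exact ⟨k, not_le.1 hm, hs⟩

lemma one_mem (ht : 0 < t) (hα : 1 < α) (h2 : α ≤ 2) (ht2 : t < 2) :
    (1 : ℤ) ∈ seqSet t α := by
  obtain ⟨n, h1, h3⟩ := first ht hα ht2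
  refine ⟨n, ?_⟩
  symm
  rw [Int.floor_eq_iff]
  have e : t * α ^ (n + 1) = (t * α ^ n) * α := by ring
  rw [e] at h3
  push_cast
  constructor
  · nlinarith
  · linarith

lemma BC_of_five (ht : 0 < t) (hα : 1 < α) (h74 : α ≤ 7 / 4) (ht2 : t < 2) (n : ℕ)
    (hn2 : 2 ≤ t * α ^ n) (hn3 : t * α ^ n < 3)
    (h5 : ∀ k : ℕ, 2 ≤ t * α ^ k → t * α ^ k < 3 → t * α ^ (k + 1) < 5) : BC t α := by
  have h1A := one_mem ht hα (by linarith) ht2
  have h2A : (2 : ℤ) ∈ seqSet t α := by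
    refine ⟨n, ?_⟩
    symm
    rw [Int.floor_eq_iff]
    push_cast
    exact ⟨hn2, by linarith⟩
  rw [BC_iff ht hα (by linarith)]
  refine ⟨ht2, fun k hk => ?_⟩
  have hb := below_nonneg (seqSet t α) ⌊t * α ^ (k + 1)⌋
  have hk3 : (⌊t * α ^ k⌋ : ℝ) < 3 := by
    refine hk.trans_le ?_
    rw [div_le_iff₀ (by linarith)]
    linarith
  have hk3' : ⌊t * α ^ k⌋ < 3 := by exact_mod_cast hk3
  have hx3 : t * α ^ k < 3 := by
    have h6 := Int.lt_floor_add_one (t * α ^ k)
    have h7 : (⌊t * α ^ k⌋ : ℝ) ≤ 2 := by exact_mod_cast (show ⌊t * α ^ k⌋ ≤ 2 by omega)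
    linarith
  have e : t * α ^ (k + 1) = (t * α ^ k) * α := by ring
  have hgen : ∀ M : ℤ, 2 ≤ M → 1 ≤ below (seqSet t α) M := by
    intro M hM
    have := below_add_le (seqSet t α) h1A le_rfl (show (1 : ℤ) < M by linarith)
    have h8 := below_nonneg (seqSet t α) 1
    linarith
  by_cases hx2 : 2 ≤ t * α ^ k
  · have h6 := h5 k hx2 hx3
    have h7 : ⌊t * α ^ (k + 1)⌋ < 5 := by
      rw [Int.floor_lt]
      exact_mod_cast h6
    by_cases h8 : ⌊t * α ^ (k + 1)⌋ < 3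
    · by_cases h9 : ⌊t * α ^ (k + 1)⌋ < 2
      · linarith
      · have := hgen _ (not_lt.1 h9)
        linarith
    · push Not at h8
      have := below_add_le (seqSet t α) h2A (by norm_num)
        (show (2 : ℤ) < ⌊t * α ^ (k + 1)⌋ by linarith)
      have h10 := hgen 2 le_rfl
      linarith
  · push Not at hx2
    have hkn : k + 1 ≤ n := by
      by_contra hh
      push Not at hh
      have := x_mono ht hα (show n ≤ k by omega)
      simp only at this
      linarith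
    have h6 : t * α ^ (k + 1) < 3 := lt_of_le_of_lt (x_mono ht hα hkn) hn3
    have h7 : ⌊t * α ^ (k + 1)⌋ < 3 := by
      rw [Int.floor_lt]
      exact_mod_cast h6
    by_cases h9 : ⌊t * α ^ (k + 1)⌋ < 2
    · linarith
    · have := hgen _ (not_lt.1 h9)
      linarith

lemma BC_small (ht : 0 < t) (hα : 1 < α) (h32 : α ≤ 3 / 2) (ht2 : t < 2) : BC t α := by
  rw [BC_iff ht hα (by linarith)]
  refine ⟨ht2, fun k hk => ?_⟩
  have hb := below_nonneg (seqSet t α) ⌊t * α ^ (k + 1)⌋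
  have hk1 : (⌊t * α ^ k⌋ : ℝ) < 1 := by
    refine hk.trans_le ?_
    rw [div_le_iff₀ (by linarith)]
    linarith
  have hk1' : ⌊t * α ^ k⌋ < 1 := by exact_mod_cast hk1
  have hx1 : t * α ^ k < 1 := by
    have h6 := Int.lt_floor_add_one (t * α ^ k)
    have h7 : (⌊t * α ^ k⌋ : ℝ) ≤ 0 := by exact_mod_cast (show ⌊t * α ^ k⌋ ≤ 0 by omega)
    linarith
  have h8 : ⌊t * α ^ (k + 1)⌋ ≤ 1 := by
    apply floor_le_one
    have e : t * α ^ (k + 1) = (t * α ^ k) * α := by ring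
    rw [e]
    nlinarith
  linarith

lemma BC_two (ht : 0 < t) (hα : 1 < α) (h53 : α ≤ 5 / 3) (ht2 : t < 2) (n : ℕ)
    (hn : ⌊t * α ^ n⌋ = 2) : BC t α := by
  rw [Int.floor_eq_iff] at hn
  push_cast at hn
  refine BC_of_five ht hα (by linarith) ht2 n hn.1 (by linarith [hn.2]) fun k h2 h3 => ?_
  have e : t * α ^ (k + 1) = (t * α ^ k) * α := by ring
  rw [e]
  nlinarith

lemma BC_iff_five (ht : 0 < t) (hα : 1 < α) (hφ : α + 1 ≤ α ^ 2) (h74 : α ≤ 7 / 4) :
    BC t α ↔ t < 2 ∧ ∃ n : ℕ, 2 ≤ t * α ^ n ∧ t * α ^ n < 3 ∧ t * α ^ (n + 1) < 5 := by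
  have h85 : 8 / 5 ≤ α := by nlinarith
  constructor
  · intro h
    have ht2 := t_lt_two ht hα h
    refine ⟨ht2, ?_⟩
    obtain ⟨k, hk1, hk2⟩ := first ht hα ht2
    have hsmall : ∀ j, j ≤ k → ⌊t * α ^ j⌋ ≤ 1 := fun j hj =>
      floor_le_one (lt_of_le_of_lt (x_mono ht hα hj) hk1)
    have hge : (2 : ℤ) ≤ ⌊t * α ^ (k + 1)⌋ := by
      rw [Int.le_floor]
      exact_mod_cast hk2
    have hle2 : ⌊t * α ^ (k + 1)⌋ ≤ 2 := by
      have h1 := h (k + 1)
      have h2 : below (seqSet t α) ⌊t * α ^ (k + 1)⌋ ≤ below (seqSet t α) 1 + 1 := by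
        apply below_le
        · rintro w ⟨j, rfl⟩ _ hj
          apply hsmall
          by_contra hh
          push Not at hh
          exact absurd (a_mono ht hα (show k + 1 ≤ j by omega)) (not_le.2 hj)
        · exact le_rfl
      rw [below_one] at h2
      linarith
    have heq : ⌊t * α ^ (k + 1)⌋ = 2 := le_antisymm hle2 hge
    have hx3 : t * α ^ (k + 1) < 3 := by
      have h6 := Int.lt_floor_add_one (t * α ^ (k + 1))
      rw [heq] at h6
      push_cast at h6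
      linarith
    refine ⟨k + 1, hk2, hx3, ?_⟩
    have h1 := h (k + 1 + 1)
    have h2 : below (seqSet t α) ⌊t * α ^ (k + 1 + 1)⌋ ≤ below (seqSet t α) 2 + 2 := by
      apply below_le
      · rintro w ⟨j, rfl⟩ _ hj
        rw [← heq]
        apply a_mono ht hα
        by_contra hh
        push Not at hh
        exact absurd (a_mono ht hα (show k + 1 + 1 ≤ j by omega)) (not_le.2 hj)
      · norm_num
    have h3 : below (seqSet t α) 2 ≤ below (seqSet t α) 1 + 1 := by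
      apply below_le
      · intro w _ _ hw
        linarith
      · exact le_rfl
    rw [below_one] at h3
    have h4 : ⌊t * α ^ (k + 1 + 1)⌋ < 5 := by linarith
    rw [Int.floor_lt] at h4
    exact_mod_cast h4
  · rintro ⟨ht2, n, hn2, hn3, hn5⟩
    refine BC_of_five ht hα h74 ht2 n hn2 hn3 fun k h2 h3 => ?_
    have huniq : ∀ i j : ℕ, i < j → 2 ≤ t * α ^ i → 3 ≤ t * α ^ j := by
      intro i j hij hi
      have h6 := x_mono ht hα (show i + 1 ≤ j by omega)
      simp only at h6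
      have e : t * α ^ (i + 1) = (t * α ^ i) * α := by ring
      rw [e] at h6
      nlinarith
    rcases lt_trichotomy k n with h | h | h
    · exact absurd (huniq k n h h2) (not_le.2 hn3)
    · rw [h]
      exact hn5
    · exact absurd (huniq n k h hn2) (not_le.2 h3)

end Pool.Agent.Y83.FL
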